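import Mathlib

set_option autoImplicit false

/-!
# Blaschke products and indestructible Blaschke products: definitions
-/

open Filter Topology
open scoped ComplexConjugate

namespace Pool.Agent.Helper824_ind

/-- The open unit disc. -/
abbrev disc : Set ℂ := Metric.ball (0 : ℂ) 1

/-- The factor `(|a| / a) (a - z) / (1 - conj a z)`. -/
noncomputable def fac (a z : ℂ) : ℂ := ((‖a‖ : ℝ) : ℂ) / a * ((a - z) / (1 - conj a * z))

/-- `B` is (on the disc) a Blaschke product
`e^{iθ} z^m ∏ (|a_i| / a_i) (a_i - z) / (1 - conj a_i z)` with `0 < |a_i| < 1` and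
`∑ (1 - |a_i|) < ∞` (the countable index set may be empty, finite or infinite), and `B` is not
constant on the disc. -/
def IsBlaschke (B : ℂ → ℂ) : Prop :=
  (∃ z ∈ disc, ∃ w ∈ disc, B z ≠ B w) ∧
  ∃ (θ : ℝ) (m : ℕ) (ι : Type) (_ : Countable ι) (a : ι → ℂ), (∀ i, a i ≠ 0 ∧ ‖a i‖ < 1) ∧
    (Summable fun i => 1 - ‖a i‖) ∧
    ∀ z ∈ disc, ∃ p : ℂ, HasProd (fun i => fac (a i) z) p ∧
      B z = Complex.exp (θ * Complex.I) * z ^ m * p

/-- The conformal automorphism `w ↦ e^{iφ} (w - a) / (1 - conj a w)` of the disc. -/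
noncomputable def aut (φ : ℝ) (a w : ℂ) : ℂ :=
  Complex.exp (φ * Complex.I) * ((w - a) / (1 - conj a * w))

/-- `B` is an indestructible Blaschke product: it is a Blaschke product and so is `T ∘ B` for
every conformal automorphism `T` of the disc. -/
def Indestructible (B : ℂ → ℂ) : Prop :=
  IsBlaschke B ∧ ∀ (φ : ℝ) (a : ℂ), a ∈ disc → IsBlaschke (fun z => aut φ a (B z))

end Pool.Agent.Helper824_ind
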