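import Pool.Agent.Helper824_ind.Defs
import Pool.Agent.Helper34.Dg.Bfac

set_option autoImplicit false

open MeasureTheory Filter Topology Complex Metric Set
open scoped ComplexConjugate

namespace Pool.Agent.Helper824_ind

open Pool.Agent.Helper34.Dg (bfac mem_disc bfac_sub_one bfac_diff bfac_le bfac_eq_zero
  one_sub_bfac one_sub_le bden_ne)

section family

variable {ι : Type} {a : ι → ℂ}

/-- infinite Blaschke product -/
noncomputable def bprod (a : ι → ℂ) (z : ℂ) : ℂ := ∏' i, bfac (a i) z

variable (ha : ∀ i, a i ∈ disc) (hs : Summable fun i => 1 - ‖a i‖)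

include ha hs in
lemma fam_summable {z : ℂ} (hz : z ∈ disc) : Summable fun i => ‖bfac (a i) z - 1‖ := by
  have hz1 : ‖z‖ < 1 := mem_disc.1 hz
  refine Summable.of_nonneg_of_le (fun _ => norm_nonneg _) (fun i => ?_)
    (hs.mul_right (2 / (1 - ‖z‖)))
  rw [mul_div, le_div_iff₀ (by linarith)]
  exact bfac_sub_one (ha i) hz

include ha hs in
lemma fam_hasProd {z : ℂ} (hz : z ∈ disc) : HasProd (fun i => bfac (a i) z) (bprod a z) := by
  have h1 : Multipliable fun i => (1 + (bfac (a i) z - 1)) :=
    multipliable_one_add_of_summable (fam_summable ha hs hz)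
  have h2 : (fun i => (1 + (bfac (a i) z - 1))) = fun i => bfac (a i) z := by
    funext i; ring
  rw [h2] at h1
  exact h1.hasProd

include ha hs in
lemma fam_diff : DifferentiableOn ℂ (bprod a) disc := by
  have hball : ∀ R : ℝ, R < 1 → DifferentiableOn ℂ (bprod a) (ball 0 R) := by
    intro R hR1
    have hsub : ball (0 : ℂ) R ⊆ disc := ball_subset_ball hR1.le
    have h1 : HasProdLocallyUniformlyOn
        (fun (i : ι) z => 1 + (bfac (a i) z - 1)) (fun z => ∏' i, (1 + (bfac (a i) z - 1)))
        (ball 0 R) := by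
      refine Summable.hasProdLocallyUniformlyOn_one_add isOpen_ball
        (u := fun i => (1 - ‖a i‖) * (2 / (1 - R))) (hs.mul_right _) ?_ ?_
      · refine Filter.Eventually.of_forall fun i z hz => ?_
        have h2 := bfac_sub_one (ha i) (hsub hz)
        rw [mul_div, le_div_iff₀ (by linarith)]
        refine le_trans ?_ h2
        apply mul_le_mul_of_nonneg_left _ (norm_nonneg _)
        rw [mem_ball_zero_iff] at hz
        linarith
      · intro i
        exact ((bfac_diff (ha i)).continuousOn.mono hsub).sub continuousOn_const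
    have h2 : DifferentiableOn ℂ (fun z => ∏' i, (1 + (bfac (a i) z - 1))) (ball 0 R) := by
      refine TendstoLocallyUniformlyOn.differentiableOn
        (hasProdLocallyUniformlyOn_iff_tendstoLocallyUniformlyOn.1 h1) ?_ isOpen_ball
      refine Filter.Eventually.of_forall fun s => ?_
      refine DifferentiableOn.fun_finsetProd fun i _ => ?_
      exact (differentiableOn_const _).add
        (((bfac_diff (ha i)).mono hsub).sub (differentiableOn_const _))
    refine h2.congr fun z _ => ?_
    unfold bprod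
    congr 1
    funext i; ring
  intro z hz
  obtain ⟨R, hR0, hR1⟩ := exists_between (mem_disc.1 hz)
  exact ((hball R hR1).differentiableAt
    (isOpen_ball.mem_nhds (mem_ball_zero_iff.2 hR0))).differentiableWithinAt

include ha hs in
lemma fam_le_fin (s : Finset ι) {z : ℂ} (hz : z ∈ disc) :
    ‖bprod a z‖ ≤ ∏ i ∈ s, ‖bfac (a i) z‖ := by
  refine le_of_tendsto (fam_hasProd ha hs hz).norm ?_
  filter_upwards [eventually_ge_atTop s] with t ht
  classical
  rw [← Finset.prod_sdiff ht]
  refine mul_le_of_le_one_left (Finset.prod_nonneg fun _ _ => norm_nonneg _) ?_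
  exact Finset.prod_le_one (fun _ _ => norm_nonneg _) fun i _ => bfac_le (ha i) hz

include ha hs in
lemma fam_le {z : ℂ} (hz : z ∈ disc) : ‖bprod a z‖ ≤ 1 := by
  simpa using fam_le_fin ha hs ∅ hz

end family

/-- The product form, with the zeros at the origin included in the family. -/
def Form (u : ℂ → ℂ) : Prop :=
  ∃ (c : ℂ) (ι : Type) (a : ι → ℂ), ‖c‖ = 1 ∧ (∀ i, a i ∈ disc) ∧
    (Summable fun i => 1 - ‖a i‖) ∧ ∀ z ∈ disc, u z = c * bprod a z

lemma Form.diff {u : ℂ → ℂ} (h : Form u) : DifferentiableOn ℂ u disc := by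
  obtain ⟨c, ι, a, hc, ha, hs, h⟩ := h
  exact ((fam_diff ha hs).const_mul c).congr h

lemma Form.le {u : ℂ → ℂ} (h : Form u) : ∀ z ∈ disc, ‖u z‖ ≤ 1 := by
  obtain ⟨c, ι, a, hc, ha, hs, h⟩ := h
  intro z hz
  rw [h z hz, norm_mul, hc, one_mul]
  exact fam_le ha hs hz

lemma bfac_of_ne {a : ℂ} (ha : a ≠ 0) (z : ℂ) : bfac a z = fac a z := by
  unfold bfac fac
  rw [if_neg ha]

lemma form_of_blaschke {B : ℂ → ℂ} (h : IsBlaschke B) : Form B := by
  obtain ⟨-, θ, m, ι, hι, a, ha, hs, h⟩ := h
  refine ⟨Complex.exp (θ * Complex.I), Fin m ⊕ ι, Sum.elim (fun _ => 0) a, ?_, ?_, ?_, ?_⟩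
  · exact Complex.norm_exp_ofReal_mul_I θ
  · rintro (i | i)
    · simp [disc]
    · simpa [disc] using (ha i).2
  · have h1 : Summable ((fun i => 1 - ‖(Sum.elim (fun _ : Fin m => (0 : ℂ)) a) i‖) ∘ Sum.inl) :=
      Summable.of_finite
    have h2 : Summable ((fun i => 1 - ‖(Sum.elim (fun _ : Fin m => (0 : ℂ)) a) i‖) ∘ Sum.inr) := hs
    exact (h1.hasSum.sum h2.hasSum).summable
  · intro z hz
    obtain ⟨p, hp, hB⟩ := h z hz
    rw [hB, mul_assoc]
    congr 1
    have h1 : HasProd ((fun i => bfac ((Sum.elim (fun _ : Fin m => (0 : ℂ)) a) i) z) ∘ Sum.inl)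
        (z ^ m) := by
      have := hasProd_fintype ((fun i => bfac ((Sum.elim (fun _ : Fin m => (0 : ℂ)) a) i) z) ∘ Sum.inl)
      simpa [bfac] using this
    have h2 : HasProd ((fun i => bfac ((Sum.elim (fun _ : Fin m => (0 : ℂ)) a) i) z) ∘ Sum.inr)
        p := by
      have : ((fun i => bfac ((Sum.elim (fun _ : Fin m => (0 : ℂ)) a) i) z) ∘ Sum.inr) =
          fun i => fac (a i) z := by
        funext i
        exact bfac_of_ne (ha i).1 z
      rw [this]
      exact hp
    exact ((h1.sum h2).tprod_eq).symm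

lemma blaschke_of_form {u : ℂ → ℂ} (h : Form u) (hn : ∃ z ∈ disc, ∃ w ∈ disc, u z ≠ u w) :
    IsBlaschke u := by
  refine ⟨hn, ?_⟩
  obtain ⟨c, ι, a, hc, ha, hs, h⟩ := h
  have hcount : Countable ι := by
    have h1 : (Function.support fun i => 1 - ‖a i‖).Countable := hs.countable_support
    have h2 : (Function.support fun i => 1 - ‖a i‖) = univ := by
      ext i
      have := mem_disc.1 (ha i)
      simp only [Function.mem_support, mem_univ, iff_true]
      linarith
    rw [h2, Set.countable_univ_iff] at h1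
    exact h1
  have hfin : Finite {i // a i = 0} := by
    have h1 : Tendsto (fun i => 1 - ‖a i‖) cofinite (𝓝 0) := hs.tendsto_cofinite_zero
    have h2 : ∀ᶠ i in cofinite, 1 - ‖a i‖ < 1 := h1.eventually_lt_const one_pos
    rw [eventually_cofinite] at h2
    refine (h2.subset ?_).to_subtype
    intro i hi
    simp only [Set.mem_ofPred_eq] at hi ⊢
    rw [hi]
    simp
  have : Fintype {i // a i = 0} := Fintype.ofFinite _
  obtain ⟨θ, hθ⟩ : ∃ θ : ℝ, c = Complex.exp (θ * Complex.I) := by
    refine ⟨c.arg, ?_⟩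
    have := Complex.norm_mul_exp_arg_mul_I c
    rw [hc, Complex.ofReal_one, one_mul] at this
    exact this.symm
  refine ⟨θ, Fintype.card {i // a i = 0}, {i // ¬ a i = 0}, inferInstance, fun i => a i,
    fun i => ⟨i.2, mem_disc.1 (ha i)⟩, hs.comp_injective Subtype.val_injective, ?_⟩
  intro z hz
  have hp := fam_hasProd (a := fun i : {i // ¬ a i = 0} => a i) (fun i => ha i)
    (hs.comp_injective Subtype.val_injective) hz
  refine ⟨bprod (fun i : {i // ¬ a i = 0} => a i) z, ?_, ?_⟩
  · have : (fun i : {i // ¬ a i = 0} => fac (a i) z) = fun i : {i // ¬ a i = 0} => bfac (a i) z := by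
      funext i
      exact (bfac_of_ne i.2 z).symm
    rw [this]
    exact hp
  · rw [h z hz, ← hθ, mul_assoc]
    congr 1
    have h1 : HasProd ((fun i : {i // a i = 0} ⊕ {i // ¬ a i = 0} =>
        bfac (a (Equiv.sumCompl (fun i => a i = 0) i)) z) ∘ Sum.inl)
        (z ^ Fintype.card {i // a i = 0}) := by
      have := hasProd_fintype ((fun i : {i // a i = 0} ⊕ {i // ¬ a i = 0} =>
        bfac (a (Equiv.sumCompl (fun i => a i = 0) i)) z) ∘ Sum.inl)
      convert this using 1
      rw [Finset.prod_congr rfl (g := fun _ => z)]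
      · simp
      · intro i _
        simp [bfac, i.2]
    have h2 : HasProd ((fun i : {i // a i = 0} ⊕ {i // ¬ a i = 0} =>
        bfac (a (Equiv.sumCompl (fun i => a i = 0) i)) z) ∘ Sum.inr)
        (bprod (fun i : {i // ¬ a i = 0} => a i) z) := hp
    have h3 := h1.sum h2
    have h4 : HasProd (fun i => bfac (a i) z)
        (z ^ Fintype.card {i // a i = 0} * bprod (fun i : {i // ¬ a i = 0} => a i) z) :=
      (Equiv.hasProd_iff (Equiv.sumCompl (fun i => a i = 0))).1 h3
    exact (fam_hasProd ha hs hz).unique h4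

end Pool.Agent.Helper824_ind
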