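import Pool.Agent.Helper824_ind.Fam

set_option autoImplicit false

open MeasureTheory Filter Topology Complex Metric Set
open scoped ComplexConjugate

namespace Pool.Agent.Helper824_ind

open Pool.Agent.Helper34.Dg (bfac mem_disc bfac_sub_one bfac_diff bfac_le bfac_eq_zero
  one_sub_bfac one_sub_le bden_ne)

lemma isPreconnected_disc : IsPreconnected disc := (convex_ball (0 : ℂ) 1).isPreconnected

lemma ana {g : ℂ → ℂ} (hg : DifferentiableOn ℂ g disc) : AnalyticOnNhd ℂ g disc :=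
  hg.analyticOnNhd isOpen_ball

/-- A nonconstant function in product form maps the disc to the disc. -/
lemma maps_disc {C : ℂ → ℂ} (hC : Form C) (hn : ∃ z ∈ disc, ∃ w ∈ disc, C z ≠ C w) :
    ∀ z ∈ disc, C z ∈ disc := by
  intro z hz
  rw [mem_disc]
  by_contra hc
  push Not at hc
  have h1 : ‖C z‖ = 1 := le_antisymm (hC.le z hz) hc
  have hmax : IsMaxOn (norm ∘ C) disc z := by
    intro w hw
    simp only [Function.comp, Set.mem_ofPred_eq]
    rw [h1]
    exact hC.le w hw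
  have heq : EqOn C (Function.const ℂ (C z)) disc :=
    Complex.eqOn_of_isPreconnected_of_isMaxOn_norm isPreconnected_disc isOpen_ball hC.diff hz hmax
  obtain ⟨x, hx, y, hy, hxy⟩ := hn
  exact hxy ((heq hx).trans (heq hy).symm)

/-- Two holomorphic functions with the same modulus on the disc agree up to a unimodular
constant. -/
lemma eq_of_norm_eq {f g : ℂ → ℂ} (hf : DifferentiableOn ℂ f disc) (hg : DifferentiableOn ℂ g disc)
    (h : ∀ z ∈ disc, ‖f z‖ = ‖g z‖) (hn : ∃ z ∈ disc, g z ≠ 0) :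
    ∃ c : ℂ, ‖c‖ = 1 ∧ ∀ z ∈ disc, f z = c * g z := by
  obtain ⟨z0, hz0, hg0⟩ := hn
  have hgc : ContinuousAt g z0 := hg.continuousOn.continuousAt (isOpen_ball.mem_nhds hz0)
  have hev : ∀ᶠ z in 𝓝 z0, g z ≠ 0 ∧ z ∈ disc :=
    (hgc.eventually_ne hg0).and (isOpen_ball.mem_nhds hz0)
  have hq : ∀ᶠ z in 𝓝 z0, DifferentiableAt ℂ (fun z => f z / g z) z := by
    filter_upwards [hev] with z hz
    exact (hf.differentiableAt (isOpen_ball.mem_nhds hz.2)).div
      (hg.differentiableAt (isOpen_ball.mem_nhds hz.2)) hz.1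
  have hn1 : ∀ z ∈ disc, g z ≠ 0 → ‖f z / g z‖ = 1 := by
    intro z hz hgz
    rw [norm_div, h z hz, div_self (norm_ne_zero_iff.2 hgz)]
  have hloc : IsLocalMax (norm ∘ fun z => f z / g z) z0 := by
    filter_upwards [hev] with z hz
    simp only [Function.comp]
    rw [hn1 z hz.2 hz.1, hn1 z0 hz0 hg0]
  have hconst := Complex.eventually_eq_of_isLocalMax_norm hq hloc
  set c := f z0 / g z0 with hc
  refine ⟨c, hn1 z0 hz0 hg0, ?_⟩
  have heq : f =ᶠ[𝓝 z0] fun z => c * g z := by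
    filter_upwards [hconst, hev] with z h1 h2
    rw [← h1, div_mul_cancel₀ _ h2.1]
  exact fun z hz => (ana hf).eqOn_of_preconnected_of_eventuallyEq (ana (hg.const_mul c))
    isPreconnected_disc hz0 heq hz

lemma norm_bfac_aut {b w : ℂ} : ‖bfac b w‖ = ‖aut 0 b w‖ := by
  unfold bfac aut
  split_ifs with h
  · subst h
    simp
  · rw [norm_mul, norm_mul, norm_div, norm_div, norm_div]
    rw [Complex.norm_real, norm_norm, div_self (norm_ne_zero_iff.2 h), norm_sub_rev]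
    simp

/-- `u ∘ C` has the product form if `u` has it and all Frostman shifts of `C` have it. -/
theorem comp_form {u C : ℂ → ℂ} (hu : Form u) (hCd : DifferentiableOn ℂ C disc)
    (hC1 : ∀ z ∈ disc, C z ∈ disc)
    (hC : ∀ b ∈ disc, Form (fun z => aut 0 b (C z))) (hne : ∃ z ∈ disc, u (C z) ≠ 0) :
    Form (fun z => u (C z)) := by
  obtain ⟨c, ι, b, hc, hb, hs, hu⟩ := hu
  choose c' κ ζ hc' hζ hsζ hval using fun j : ι => hC (b j) (hb j)
  obtain ⟨z0, hz0, hne0⟩ := hne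
  have hX : bprod b (C z0) ≠ 0 := by
    intro h
    rw [hu _ (hC1 z0 hz0), h, mul_zero] at hne0
    exact hne0 rfl
  set X : ℝ := ‖bprod b (C z0)‖ with hXdef
  have hX0 : 0 < X := norm_pos_iff.2 hX
  -- the modulus of one factor
  have hfac : ∀ j, ∀ z ∈ disc, ‖bfac (b j) (C z)‖ = ‖bprod (ζ j) z‖ := by
    intro j z hz
    have h1 : aut 0 (b j) (C z) = c' j * bprod (ζ j) z := hval j z hz
    rw [norm_bfac_aut, h1, norm_mul, hc' j, one_mul]
  have hxX : ∀ j, X ≤ ‖bfac (b j) (C z0)‖ := by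
    intro j
    have := fam_le_fin hb hs {j} (hC1 z0 hz0)
    simpa using this
  have hz1 : ‖z0‖ < 1 := mem_disc.1 hz0
  -- the basic estimate
  have hest : ∀ j, ∀ s : Finset (κ j), ∑ i ∈ s, (1 - ‖ζ j i‖) ≤
      8 / (1 - ‖z0‖) * ((1 - ‖bfac (b j) (C z0)‖) / X) := by
    intro j s
    have hx0 : 0 < ‖bfac (b j) (C z0)‖ := lt_of_lt_of_le hX0 (hxX j)
    have h1 : ‖bfac (b j) (C z0)‖ ≤ ∏ i ∈ s, ‖bfac (ζ j i) z0‖ := by
      rw [hfac j z0 hz0]
      exact fam_le_fin (hζ j) (hsζ j) s hz0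
    have hpos : 0 < ∏ i ∈ s, ‖bfac (ζ j i) z0‖ := lt_of_lt_of_le hx0 h1
    have hne' : ∀ i ∈ s, ‖bfac (ζ j i) z0‖ ≠ 0 := by
      intro i hi h
      rw [Finset.prod_eq_zero hi h] at hpos
      exact lt_irrefl _ hpos
    have h2 : ∑ i ∈ s, (1 - ‖bfac (ζ j i) z0‖) ≤ - Real.log (∏ i ∈ s, ‖bfac (ζ j i) z0‖) := by
      rw [Real.log_prod (hf := hne'), ← Finset.sum_neg_distrib]
      refine Finset.sum_le_sum fun i hi => ?_
      have := Real.log_le_sub_one_of_pos (lt_of_le_of_ne (norm_nonneg _) (hne' i hi).symm)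
      linarith
    have h3 : - Real.log (∏ i ∈ s, ‖bfac (ζ j i) z0‖) ≤ - Real.log ‖bfac (b j) (C z0)‖ :=
      neg_le_neg (Real.log_le_log hx0 h1)
    have h4 : - Real.log ‖bfac (b j) (C z0)‖ ≤ (1 - ‖bfac (b j) (C z0)‖) / X := by
      have h5 := Real.one_sub_inv_le_log_of_pos hx0
      have h6 : (1 - ‖bfac (b j) (C z0)‖) / ‖bfac (b j) (C z0)‖ ≤
          (1 - ‖bfac (b j) (C z0)‖) / X := by
        have := bfac_le (hb j) (hC1 z0 hz0)
        exact div_le_div_of_nonneg_left (by linarith) hX0 (hxX j)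
      have h7 : (1 - ‖bfac (b j) (C z0)‖) / ‖bfac (b j) (C z0)‖ =
          ‖bfac (b j) (C z0)‖⁻¹ - 1 := by
        field_simp
      linarith
    have h8 : ∑ i ∈ s, (1 - ‖ζ j i‖) ≤ 8 / (1 - ‖z0‖) * ∑ i ∈ s, (1 - ‖bfac (ζ j i) z0‖) := by
      rw [Finset.mul_sum]
      refine Finset.sum_le_sum fun i _ => ?_
      have h9 := one_sub_le (hζ j i) hz0
      have h10 := bfac_le (hζ j i) hz0
      have h11 := norm_nonneg (bfac (ζ j i) z0)
      rw [div_mul_eq_mul_div, le_div_iff₀ (by linarith)]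
      nlinarith
    have h12 : 0 ≤ 8 / (1 - ‖z0‖) := div_nonneg (by norm_num) (by linarith)
    calc ∑ i ∈ s, (1 - ‖ζ j i‖) ≤ 8 / (1 - ‖z0‖) * ∑ i ∈ s, (1 - ‖bfac (ζ j i) z0‖) := h8
      _ ≤ 8 / (1 - ‖z0‖) * ((1 - ‖bfac (b j) (C z0)‖) / X) :=
          mul_le_mul_of_nonneg_left (by linarith) h12
  have hsum1 : Summable fun j => 8 / (1 - ‖z0‖) * ((1 - ‖bfac (b j) (C z0)‖) / X) := by
    refine Summable.mul_left _ (Summable.div_const ?_ X)
    refine Summable.of_nonneg_of_le (fun j => ?_) (fun j => ?_) (fam_summable hb hs (hC1 z0 hz0))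
    · have := bfac_le (hb j) (hC1 z0 hz0)
      linarith
    · have := norm_sub_norm_le (1 : ℂ) (bfac (b j) (C z0))
      rw [norm_one] at this
      rw [norm_sub_rev]
      exact this
  have hmem : ∀ p : Σ j, κ j, ζ p.1 p.2 ∈ disc := fun p => hζ p.1 p.2
  have hsum : Summable fun p : Σ j, κ j => 1 - ‖ζ p.1 p.2‖ := by
    have hnn : ∀ p : Σ j, κ j, 0 ≤ 1 - ‖ζ p.1 p.2‖ := by
      intro p
      have := mem_disc.1 (hmem p)
      linarith
    rw [summable_sigma_of_nonneg hnn]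
    refine ⟨fun j => hsζ j, ?_⟩
    refine Summable.of_nonneg_of_le (fun j => tsum_nonneg fun i => hnn ⟨j, i⟩) (fun j => ?_) hsum1
    exact (hsζ j).tsum_le_of_sum_le (hest j)
  -- the modulus of the product
  have hmod : ∀ z ∈ disc, ‖u (C z)‖ = ‖bprod (fun p : Σ j, κ j => ζ p.1 p.2) z‖ := by
    intro z hz
    have h1 := fam_hasProd hmem hsum hz
    have h2 : HasProd (fun j => bprod (ζ j) z) (bprod (fun p : Σ j, κ j => ζ p.1 p.2) z) :=
      h1.sigma fun j => fam_hasProd (hζ j) (hsζ j) hz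
    have h3 := (fam_hasProd hb hs (hC1 z hz)).norm
    have h4 := h2.norm
    have h5 : (fun j => ‖bprod (ζ j) z‖) = fun j => ‖bfac (b j) (C z)‖ := by
      funext j
      exact (hfac j z hz).symm
    rw [h5] at h4
    rw [hu _ (hC1 z hz), norm_mul, hc, one_mul]
    exact h3.unique h4
  have hud : DifferentiableOn ℂ u disc := ((fam_diff hb hs).const_mul c).congr hu
  have hcomp : DifferentiableOn ℂ (fun z => u (C z)) disc := hud.comp hCd hC1
  obtain ⟨d, hd, heq⟩ := eq_of_norm_eq hcomp (fam_diff hmem hsum) hmod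
    ⟨z0, hz0, fun h => hne0 (by
      have := hmod z0 hz0
      rw [h, norm_zero, norm_eq_zero] at this
      exact this)⟩
  exact ⟨d, Σ j, κ j, fun p => ζ p.1 p.2, hd, hmem, hsum, heq⟩

/-- The composition of nonconstant holomorphic self maps of the disc is nonconstant. -/
lemma comp_nonconst {u C : ℂ → ℂ} (hu : DifferentiableOn ℂ u disc)
    (hun : ∃ z ∈ disc, ∃ w ∈ disc, u z ≠ u w) (hCd : DifferentiableOn ℂ C disc)
    (hC1 : ∀ z ∈ disc, C z ∈ disc) (hCn : ∃ z ∈ disc, ∃ w ∈ disc, C z ≠ C w) :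
    ∃ z ∈ disc, ∃ w ∈ disc, u (C z) ≠ u (C w) := by
  by_contra hcon
  push Not at hcon
  have h0 : (0 : ℂ) ∈ disc := by simp [disc]
  rcases (ana hCd).is_constant_or_isOpen isPreconnected_disc with ⟨w, hw⟩ | hop
  · obtain ⟨x, hx, y, hy, hxy⟩ := hCn
    exact hxy ((hw x hx).trans (hw y hy).symm)
  · have hopen : IsOpen (C '' disc) := hop disc subset_rfl isOpen_ball
    have hmem : C 0 ∈ C '' disc := ⟨0, h0, rfl⟩
    have hev : u =ᶠ[𝓝 (C 0)] fun _ => u (C 0) := by
      filter_upwards [hopen.mem_nhds hmem] with w hw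
      obtain ⟨z, hz, rfl⟩ := hw
      exact hcon z hz 0 h0
    have := (ana hu).eqOn_of_preconnected_of_eventuallyEq
      (analyticOnNhd_const) isPreconnected_disc (hC1 0 h0) hev
    obtain ⟨x, hx, y, hy, hxy⟩ := hun
    exact hxy ((this hx).trans (this hy).symm)

/-- Composition with a Blaschke product whose shifts are Blaschke products. -/
theorem comp_blaschke {u C : ℂ → ℂ} (hu : IsBlaschke u) (hC : Indestructible C) :
    IsBlaschke (fun z => u (C z)) := by
  have hCF := form_of_blaschke hC.1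
  have hC1 := maps_disc hCF hC.1.1
  have hn := comp_nonconst (form_of_blaschke hu).diff hu.1 hCF.diff hC1 hC.1.1
  refine blaschke_of_form (comp_form (form_of_blaschke hu) hCF.diff hC1
    (fun b hb => form_of_blaschke (hC.2 0 b hb)) ?_) hn
  obtain ⟨z, hz, w, hw, hzw⟩ := hn
  by_contra hcon
  push Not at hcon
  exact hzw ((hcon z hz).trans (hcon w hw).symm)

theorem main {B C : ℂ → ℂ} (hB : Indestructible B) (hC : Indestructible C) :
    Indestructible (B ∘ C) :=
  ⟨comp_blaschke (u := B) hB.1 hC,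
    fun φ a ha => comp_blaschke (u := fun z => aut φ a (B z)) (hB.2 φ a ha) hC⟩

end Pool.Agent.Helper824_ind
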